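import Pool.Agent.Helper6K1.BN.Final

/-!
# Advice that depends on the random bits, and random features with a margin
-/

set_option autoImplicit false

namespace Pool.Agent.Helper49.CA

open Pool.Agent.NPC
open Pool.Agent.Helper6K1.BN (prob)

/-- The average of the numbers `f r`, where `r` runs over all strings of `n` bits. -/
noncomputable def mean (n : ℕ) (f : List Bool → ℝ) : ℝ :=
  (∑ r : Fin n → Bool, f (List.ofFn r)) / 2 ^ n

/-- `L` is decided, with an inverse polynomial gap, by a randomised polynomial-time machine `V` with
logarithmic advice `α n r` which depends on the length `n` of the input and on the random string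
`r`: the probability of acceptance is at least `θ n + 1 / (q n + 1)` for `x ∈ L` and at most `θ n` for
`x ∉ L`, for all strings `x` of length `n`. The advice `α` and the thresholds `θ` are arbitrary
functions. (`n.size` is the number of binary digits of `n`.) -/
def CoinAdvice (L : Set (List Bool)) : Prop :=
  ∃ (c : ℕ) (V : List Bool → List Bool) (ρ q : Polynomial ℕ) (α : ℕ → List Bool → List Bool)
    (θ : ℕ → ℝ), PolyTime V ∧ (∀ n r, (α n r).length = c * n.size) ∧
    ∀ x : List Bool,
      (x ∈ L → θ x.length + 1 / (((q.eval x.length : ℕ) : ℝ) + 1) ≤
        prob (ρ.eval x.length) fun r => V (pairBits x (pairBits r (α x.length r))) = [true]) ∧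
      (x ∉ L → prob (ρ.eval x.length)
        (fun r => V (pairBits x (pairBits r (α x.length r))) = [true]) ≤ θ x.length)

open Classical in
/-- `L` is separated by random features with a polynomial margin: `V` is a polynomial-time machine,
which accepts or rejects `(x, r)` for a random string `r`, and `w n` is an arbitrary real function of
the random strings for the length `n`, with polynomial mean square. The average over `r` of the
numbers `w n r` for those `r` for which `V` accepts `(x, r)` is at least `θ n + 1` for `x ∈ L` and at
most `θ n` for `x ∉ L`, for all strings `x` of length `n`. -/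
def RandomFeatures (L : Set (List Bool)) : Prop :=
  ∃ (V : List Bool → List Bool) (ρ q : Polynomial ℕ) (w : ℕ → List Bool → ℝ) (θ : ℕ → ℝ),
    PolyTime V ∧ (∀ n : ℕ, mean (ρ.eval n) (fun r => w n r ^ 2) ≤ ((q.eval n : ℕ) : ℝ)) ∧
    ∀ x : List Bool,
      (x ∈ L → θ x.length + 1 ≤
        mean (ρ.eval x.length) fun r => if V (pairBits x r) = [true] then w x.length r else 0) ∧
      (x ∉ L →
        mean (ρ.eval x.length) (fun r => if V (pairBits x r) = [true] then w x.length r else 0) ≤
          θ x.length)

end Pool.Agent.Helper49.CA
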