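import Pool.Agent.Helper49.CA.Main
import Pool.Agent.Helper45.CA.P2
import Pool.Agent.Helper48.CA3
import Pool.Agent.Hx18.CA.CA4
import Pool.Agent.Z45.OG.Sat

/-!
# NP and advice that depends on the random bits
-/

set_option autoImplicit false

namespace Pool.Agent.Helper49.CA

open Pool.Agent.NPC
open Pool.Agent.Helper6K1.BN (InBPP)

theorem np_of_hard {A : Set (List Bool)} (hA : NPHard A) (h : RandomFeatures A)
    {L : Set (List Bool)} (hL : InNP L) : InBPP L :=
  t1 (fun L' hL' => Pool.Agent.Helper48.CA3.t3 A L' (hA L' hL')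
    (Pool.Agent.Helper45.CA.t2 A h)) L hL

theorem randomFeatures_of_coinAdvice {L : Set (List Bool)} (h : CoinAdvice L) : RandomFeatures L :=
  Pool.Agent.Hx18.CA.t4 L h

theorem coinAdvice_of_inBPP {L : Set (List Bool)} (h : InBPP L) : CoinAdvice L :=
  Pool.Agent.Helper48.CA3.t5 L h

end Pool.Agent.Helper49.CA
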