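import Pool.Agent.Helper49.CA.Stm
import Pool.Agent.Helper6K1.BN.T2b

/-!
# From random features with a margin to a predictor
-/

set_option autoImplicit false

namespace Pool.Agent.Helper49.CA

open Finset BigOperators Pool.Agent.NPC
open Pool.Agent.H579R2.Spt (BL mem_BL ip cd ip_poly take_poly' drop_poly' ver ver_poly ver_iff)
open Pool.Agent.Helper6K1.BN

/-- the feature `r` of the instance given by `u` and `b` -/
def F1 (f : List Bool × List Unit × List Bool → Bool) (x : List Bool) (rows : List (List Bool))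
    (u : List Bool) (b : Bool) (r : List Bool) : Bool :=
  f (instS x rows u b, List.replicate (instS x rows u b).length (), r)

/-- the predictor -/
noncomputable def B3 (f : List Bool × List Unit × List Bool → Bool) (ρ : Polynomial ℕ) : Pred :=
  fun q => bif F1 f q.1 q.2.1 q.2.2.2.1 (q.2.2.2.2.take 1).headI
      ((q.2.2.1.drop 1).take (ρ.eval (instS q.1 q.2.1 q.2.2.2.1 true).length))
    then (q.2.2.2.2.take 1).headI ^^ (q.2.2.1.take 1).headI
    else ((q.2.2.2.2.drop 1).take 1).headI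

theorem B3_poly {f : List Bool × List Unit × List Bool → Bool} (hf : Poly f) {ρ : Polynomial ℕ} :
    Poly (B3 f ρ) := by
  have e0 : Poly (fun q : List Bool × List (List Bool) × List Bool × List Bool × List Bool => q) :=
    NPC.Poly.id
  have ex := NPC.Poly.fst e0
  have e1 := NPC.Poly.snd e0
  have erows := NPC.Poly.fst e1
  have e2 := NPC.Poly.snd e1
  have eh := NPC.Poly.fst e2
  have e3 := NPC.Poly.snd e2
  have eu := NPC.Poly.fst e3
  have ed := NPC.Poly.snd e3
  have un := UPoly.length (instS_poly ex erows eu (NPC.Poly.const true))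
  have u1 : UPoly (fun _ : List Bool × List (List Bool) × List Bool × List Bool × List Bool => 1) :=
    UPoly.const 1
  have uR := un.eval ρ
  have es := headI_poly (take_poly' eh u1.toPoly)
  have er := take_poly' (drop_poly' eh u1.toPoly) uR.toPoly
  have eb := headI_poly (take_poly' ed u1.toPoly)
  have ee := headI_poly (take_poly' (drop_poly' ed u1.toPoly) u1.toPoly)
  have eI := instS_poly ex erows eu eb
  have uI : Poly (fun q : List Bool × List (List Bool) × List Bool × List Bool × List Bool =>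
      List.replicate (instS q.1 q.2.1 q.2.2.2.1 (q.2.2.2.2.take 1).headI).length ()) :=
    UPoly.length eI
  have eF : Poly (fun q : List Bool × List (List Bool) × List Bool × List Bool × List Bool =>
      F1 f q.1 q.2.1 q.2.2.2.1 (q.2.2.2.2.take 1).headI
      ((q.2.2.1.drop 1).take (ρ.eval (instS q.1 q.2.1 q.2.2.2.1 true).length))) :=
    hf.comp (NPC.Poly.pair eI (NPC.Poly.pair uI er))
  exact NPC.Poly.cond eF (NPC.Poly.xor eb es) ee

section

variable (f : List Bool × List Unit × List Bool → Bool) (x : List Bool)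
  (rows : List (List Bool)) (c : List Bool) (m : ℕ)

/-- the advantage of the feature `r` -/
noncomputable def adv (r : List Bool) : ℝ :=
  𝔼 u ∈ BL m, 𝔼 b ∈ BL 1,
    (if F1 f x rows u b.headI r = true then sg (b.headI ^^ ip u c) else 0)

variable {f x rows c m}

theorem abs_adv_le (r : List Bool) : |adv f x rows c m r| ≤ 1 := by
  unfold adv
  rw [abs_le]
  constructor
  · refine le_expect (BL_nonempty _) fun u _ => le_expect (BL_nonempty _) fun b _ => ?_
    split_ifs
    · exact (abs_le.1 (abs_sg _).le).1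
    · norm_num
  · refine expect_le (BL_nonempty _) fun u _ => expect_le (BL_nonempty _) fun b _ => ?_
    split_ifs
    · exact (abs_le.1 (abs_sg _).le).2
    · norm_num

/-- the expectation over the coins of the predictor -/
theorem expect_coins (σ : Bool) (r u : List Bool) {a s : ℕ} (ha : a = 1 + (1 + s)) :
    𝔼 d ∈ BL a, sg ((bif F1 f x rows u (d.take 1).headI r then (d.take 1).headI ^^ σ
      else ((d.drop 1).take 1).headI) ^^ ip u c) =
    sg σ * 𝔼 b ∈ BL 1, (if F1 f x rows u b.headI r = true then sg (b.headI ^^ ip u c) else 0) := by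
  rw [ha]
  refine (expect_BL_split 1 _ (fun b d => sg ((bif F1 f x rows u b.headI r then b.headI ^^ σ
    else (d.take 1).headI) ^^ ip u c))).trans ?_
  rw [mul_expect]
  refine expect_congr rfl fun b _ => ?_
  refine (expect_BL_take 1 s (fun e => sg ((bif F1 f x rows u b.headI r then b.headI ^^ σ
    else e.headI) ^^ ip u c))).trans ?_
  cases hF : F1 f x rows u b.headI r
  · rw [expect_BL_one]
    cases ip u c <;> simp
  · rw [expect_BL_one]
    cases ip u c <;> cases b.headI <;> cases σ <;> simp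

/-- the expectation over the random features -/
theorem expect_adv {R : ℕ} {w : List Bool → ℝ}
    (h1 : ∀ u ∈ BL m, 1 ≤ 𝔼 r ∈ BL R, (if F1 f x rows u (ip u c) r = true then w r else 0))
    (h2 : ∀ u ∈ BL m, 𝔼 r ∈ BL R, (if F1 f x rows u (!(ip u c)) r = true then w r else 0) ≤ 0) :
    1 / 2 ≤ 𝔼 r ∈ BL R, w r * adv f x rows c m r := by
  have e1 : 𝔼 r ∈ BL R, w r * adv f x rows c m r =
      𝔼 u ∈ BL m, 𝔼 b ∈ BL 1, 𝔼 r ∈ BL R,
        sg (b.headI ^^ ip u c) * (if F1 f x rows u b.headI r = true then w r else 0) := by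
    have e2 : ∀ r ∈ BL R, w r * adv f x rows c m r = 𝔼 u ∈ BL m, 𝔼 b ∈ BL 1,
        sg (b.headI ^^ ip u c) * (if F1 f x rows u b.headI r = true then w r else 0) := by
      intro r _
      unfold adv
      rw [mul_expect]
      refine expect_congr rfl fun u _ => ?_
      rw [mul_expect]
      refine expect_congr rfl fun b _ => ?_
      split_ifs
      · ring
      · ring
    rw [expect_congr rfl e2, expect_comm]
    refine expect_congr rfl fun u _ => ?_
    rw [expect_comm]
  have e3 : ∀ u ∈ BL m, 1 / 2 ≤ 𝔼 b ∈ BL 1, 𝔼 r ∈ BL R,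
      sg (b.headI ^^ ip u c) * (if F1 f x rows u b.headI r = true then w r else 0) := by
    intro u hu
    have g1 := h1 u hu
    have g2 := h2 u hu
    have e4 : ∀ b : Bool, 𝔼 r ∈ BL R, sg (b ^^ ip u c) *
        (if F1 f x rows u b r = true then w r else 0) =
        sg (b ^^ ip u c) * 𝔼 r ∈ BL R, (if F1 f x rows u b r = true then w r else 0) := fun b => by
      rw [mul_expect]
    rw [expect_BL_one]
    change 1 / 2 ≤ ((𝔼 r ∈ BL R, sg (true ^^ ip u c) *
        (if F1 f x rows u true r = true then w r else 0)) +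
      𝔼 r ∈ BL R, sg (false ^^ ip u c) *
        (if F1 f x rows u false r = true then w r else 0)) / 2
    rw [e4 true, e4 false]
    cases hi : ip u c
    · rw [hi] at g1 g2
      change (𝔼 r ∈ BL R, (if F1 f x rows u true r = true then w r else 0)) ≤ 0 at g2
      rw [Bool.true_xor, Bool.not_false, Bool.false_xor, sg_true, sg_false]
      linarith
    · rw [hi] at g1 g2
      change (𝔼 r ∈ BL R, (if F1 f x rows u false r = true then w r else 0)) ≤ 0 at g2
      rw [Bool.true_xor, Bool.not_true, Bool.false_xor, sg_true, sg_false]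
      linarith
  rw [e1]
  exact le_expect (BL_nonempty _) e3

/-- many features have an advantage -/
theorem expect_adv_sq {R : ℕ} {w : List Bool → ℝ} {Q : ℝ} (hQ : 0 < Q)
    (hw : 𝔼 r ∈ BL R, w r ^ 2 ≤ Q) (h : 1 / 2 ≤ 𝔼 r ∈ BL R, w r * adv f x rows c m r) :
    1 / (4 * Q) ≤ 𝔼 r ∈ BL R, adv f x rows c m r ^ 2 := by
  have h1 : 𝔼 r ∈ BL R, w r * adv f x rows c m r ≤
      𝔼 r ∈ BL R, (1 / (4 * Q) * w r ^ 2 + Q * adv f x rows c m r ^ 2) := by
    refine expect_le_expect fun r _ => ?_
    have h2 : 0 ≤ (w r - 2 * Q * adv f x rows c m r) ^ 2 := sq_nonneg _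
    have h3 : 1 / (4 * Q) * w r ^ 2 + Q * adv f x rows c m r ^ 2 - w r * adv f x rows c m r =
        1 / (4 * Q) * (w r - 2 * Q * adv f x rows c m r) ^ 2 := by
      field_simp
      ring
    have h4 : 0 ≤ 1 / (4 * Q) * (w r - 2 * Q * adv f x rows c m r) ^ 2 := by positivity
    linarith
  rw [expect_add_distrib, ← mul_expect, ← mul_expect] at h1
  have h5 : 1 / (4 * Q) * 𝔼 r ∈ BL R, w r ^ 2 ≤ 1 / 4 := by
    have : 1 / (4 * Q) * 𝔼 r ∈ BL R, w r ^ 2 ≤ 1 / (4 * Q) * Q :=
      mul_le_mul_of_nonneg_left hw (by positivity)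
    have h6 : 1 / (4 * Q) * Q = 1 / 4 := by field_simp
    linarith
  rw [div_le_iff₀ (by positivity)]
  linarith

/-- the hints -/
theorem expect_hints {R : ℕ} {τ : ℝ} (_hτ : 0 ≤ τ) {a s : ℕ} (ha : a = 1 + (R + s)) :
    (𝔼 r ∈ BL R, adv f x rows c m r ^ 2 - τ ^ 2) / 2 ≤
      𝔼 h ∈ BL a, (if τ ≤ sg ((h.take 1).headI) * adv f x rows c m ((h.drop 1).take R)
        then (1 : ℝ) else 0) := by
  rw [ha]
  refine le_trans ?_ (expect_BL_split 1 _ (fun b h => if τ ≤ sg (b.headI) *
    adv f x rows c m (h.take R) then (1 : ℝ) else 0)).ge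
  have key : ∀ σ : Bool, 𝔼 h ∈ BL (R + s), (if τ ≤ sg σ * adv f x rows c m (h.take R)
      then (1 : ℝ) else 0) = 𝔼 r ∈ BL R, (if τ ≤ sg σ * adv f x rows c m r then (1 : ℝ) else 0) :=
    fun σ => expect_BL_take R s (fun r => if τ ≤ sg σ * adv f x rows c m r then (1 : ℝ) else 0)
  rw [expect_BL_one]
  change _ ≤ ((𝔼 h ∈ BL (R + s), (if τ ≤ sg true * adv f x rows c m (h.take R)
      then (1 : ℝ) else 0)) + 𝔼 h ∈ BL (R + s), (if τ ≤ sg false * adv f x rows c m (h.take R)
      then (1 : ℝ) else 0)) / 2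
  rw [key true, key false, ← expect_add_distrib]
  refine div_le_div_of_nonneg_right ?_ (by norm_num)
  have h0 : 𝔼 r ∈ BL R, adv f x rows c m r ^ 2 - τ ^ 2 =
      𝔼 r ∈ BL R, (adv f x rows c m r ^ 2 - τ ^ 2) := by
    rw [expect_sub_distrib, expect_const (BL_nonempty R)]
  rw [h0]
  refine expect_le_expect fun r _ => ?_
  have h1 := abs_adv_le (f := f) (x := x) (rows := rows) (c := c) (m := m) r
  have h2 := abs_le.1 h1
  have h3 : adv f x rows c m r ^ 2 ≤ 1 := by nlinarith
  rw [sg_true, sg_false]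
  by_cases ha1 : τ ≤ -1 * adv f x rows c m r
  · rw [if_pos ha1]
    split_ifs <;> nlinarith [sq_nonneg τ]
  · rw [if_neg ha1]
    by_cases ha2 : τ ≤ 1 * adv f x rows c m r
    · rw [if_pos ha2]
      nlinarith [sq_nonneg τ]
    · rw [if_neg ha2]
      push Not at ha1 ha2
      nlinarith

end

theorem good_of_cumF {V0 : List Bool → List Bool} {p : Polynomial ℕ}
    {f : List Bool × List Unit × List Bool → Bool} {ρ q : Polynomial ℕ} {w : ℕ → List Bool → ℝ}
    (hq : ∀ N : ℕ, 𝔼 r ∈ BL (ρ.eval N), w N r ^ 2 ≤ ((q.eval N : ℕ) : ℝ))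
    (h : ∀ (N : ℕ) (x : List Bool), x.length ≤ N →
      (x ∈ lang (Ax V0 p) → 1 ≤ 𝔼 r ∈ BL (ρ.eval N),
        (if f (x, List.replicate N (), r) = true then w N r else 0)) ∧
      (x ∉ lang (Ax V0 p) → 𝔼 r ∈ BL (ρ.eval N),
        (if f (x, List.replicate N (), r) = true then w N r else 0) ≤ 0)) :
    Good V0 p (B3 f ρ) (2 + ρ.comp (NP1 p)) (16 * (q.comp (NP1 p) + 1)) := by
  intro x rows w0 h1 h2 h3
  set m := mm p x with hm
  set n := nI x rows m with hn
  set N1 := (NP1 p).eval x.length with hN1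
  set R := ρ.eval n with hR
  have hnle : n ≤ N1 := nI_le h1 h2
  have hRle : R ≤ ρ.eval N1 := eval_mono ρ hnle
  have hAe : (2 + ρ.comp (NP1 p)).eval x.length = 2 + ρ.eval N1 := by
    simp [hN1]
  set a := (2 + ρ.comp (NP1 p)).eval x.length with ha
  have hQe : (16 * (q.comp (NP1 p) + 1)).eval x.length = 16 * (q.eval N1 + 1) := by
    simp [hN1]
  set Q : ℝ := (((16 * (q.comp (NP1 p) + 1)).eval x.length : ℕ) : ℝ) with hQ
  set q' : ℝ := ((q.eval n : ℕ) : ℝ) + 1 with hq'
  have hq'1 : 1 ≤ q' := by rw [hq']; have : (0 : ℝ) ≤ ((q.eval n : ℕ) : ℝ) := by positivity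
                           linarith
  have hQq : 16 * q' ≤ Q := by
    rw [hQ, hQe, hq']
    have : q.eval n ≤ q.eval N1 := eval_mono q hnle
    have h5 : 16 * (q.eval n + 1) ≤ 16 * (q.eval N1 + 1) := by omega
    exact_mod_cast h5
  have hlen : ∀ u ∈ BL m, ∀ b, (instS x rows u b).length = n := fun u hu b =>
    instS_length (mem_BL.1 hu)
  have g1 : ∀ u ∈ BL m, 1 ≤ 𝔼 r ∈ BL R,
      (if F1 f x rows u (ip u (cd w0)) r = true then w n r else 0) := by
    intro u hu
    have := (h n (instS x rows u (ip u (cd w0))) (hlen u hu _).le).1 ((instS_mem h3 u _).2 rfl)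
    unfold F1
    rw [hlen u hu]
    exact this
  have g2 : ∀ u ∈ BL m, 𝔼 r ∈ BL R,
      (if F1 f x rows u (!(ip u (cd w0))) r = true then w n r else 0) ≤ 0 := by
    intro u hu
    have := (h n (instS x rows u (!(ip u (cd w0)))) (hlen u hu _).le).2 (fun hcon => by
      have := (instS_mem h3 u _).1 hcon
      cases ip u (cd w0) <;> simp at this)
    unfold F1
    rw [hlen u hu]
    exact this
  have g3 := expect_adv g1 g2
  have g4 := expect_adv_sq (Q := q') (by linarith) ((hq n).trans (by rw [hq']; linarith)) g3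
  obtain ⟨s, hs⟩ : ∃ s, a = 1 + (R + s) := ⟨1 + ρ.eval N1 - R, by rw [hAe]; omega⟩
  obtain ⟨s', hs'⟩ : ∃ s', a = 1 + (1 + s') := ⟨ρ.eval N1, by rw [hAe]; omega⟩
  have hQpos : 0 < Q := by linarith
  have g5 := expect_hints (f := f) (x := x) (rows := rows) (c := cd w0) (m := m) (R := R)
    (τ := 1 / Q) (by positivity) hs
  have g6 : 1 / Q ≤ (𝔼 r ∈ BL R, adv f x rows (cd w0) m r ^ 2 - (1 / Q) ^ 2) / 2 := by
    have h6 : 4 / Q ≤ 1 / (4 * q') := by
      rw [div_le_div_iff₀ hQpos (by linarith)]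
      linarith
    have h7 : (1 / Q) ^ 2 ≤ 1 / Q := by
      have h8 : 1 / Q ≤ 1 := by rw [div_le_one hQpos]; linarith
      have h9 : 0 ≤ 1 / Q := by positivity
      nlinarith
    have h10 : 4 / Q = 4 * (1 / Q) := by ring
    have h11 : 0 ≤ 1 / Q := by positivity
    linarith
  refine (g6.trans g5).trans (expect_le_expect fun hh _ => ?_)
  have g7 : 𝔼 u ∈ BL m, 𝔼 d ∈ BL a, sg (B3 f ρ (x, rows, hh, u, d) ^^ ip u (cd w0)) =
      sg ((hh.take 1).headI) * adv f x rows (cd w0) m ((hh.drop 1).take R) := by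
    unfold adv
    rw [mul_expect]
    refine expect_congr rfl fun u hu => ?_
    rw [← expect_coins (f := f) (x := x) (rows := rows) (c := cd w0) (hh.take 1).headI
      ((hh.drop 1).take R) u hs']
    refine expect_congr rfl fun d _ => ?_
    unfold B3
    simp only [hlen u hu, ← hR]
  rw [g7]

theorem t1 : S1 := by
  intro h L hL
  obtain ⟨V0, p, hV0, hL'⟩ := hL
  obtain ⟨f, ρ, q, w, hf, hq, hg⟩ := h _ (Ax_inNP hV0 p)
  have hgood := good_of_cumF (V0 := V0) (p := p) hq hg
  have hLv : ∀ x, x ∈ L ↔ ∃ w, ver V0 p x w = true := fun x => by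
    rw [hL' x]
    exact exists_congr fun w => ver_iff.symm
  refine engine_BPP hV0 (B3_poly hf) hgood (fun n => ?_) hLv
  simp only [Polynomial.eval_mul, Polynomial.eval_add, Polynomial.eval_one, Polynomial.eval_ofNat]
  omega

end Pool.Agent.Helper49.CA
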