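import Pool.Agent.Helper49.CA.Defs
import Pool.Agent.Helper6K1.BN.T1c

/-!
# Statements of the parts
-/

set_option autoImplicit false

namespace Pool.Agent.Helper49.CA

open Finset BigOperators Pool.Agent.NPC
open Pool.Agent.H579R2.Spt (BL mem_BL)
open Pool.Agent.Helper6K1.BN (prob InBPP InRP card_BL')

/-- the average as an expectation -/
theorem mean_eq (n : ℕ) (f : List Bool → ℝ) : mean n f = 𝔼 r ∈ BL n, f r := by
  rw [mean, expect_eq_sum_div_card, card_BL']
  congr 1
  refine Finset.sum_bij' (fun r _ => List.ofFn r) (fun l _ => fun i : Fin n => l.getD i false)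
    ?_ ?_ ?_ ?_ ?_
  · intro r _
    rw [mem_BL]
    simp
  · intro l _
    exact mem_univ _
  · intro r _
    funext i
    simp
  · intro l hl
    rw [mem_BL] at hl
    subst hl
    refine List.ext_getElem (by simp) fun i h1 h2 => ?_
    simp
  · intro r _
    rfl

/-- `L` is separated by random features for all strings of length at most `N`, with threshold `0`. -/
def CumF (L : Set (List Bool)) : Prop :=
  ∃ (f : List Bool × List Unit × List Bool → Bool) (ρ q : Polynomial ℕ)
    (w : ℕ → List Bool → ℝ), NPC.Poly f ∧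
    (∀ N : ℕ, 𝔼 r ∈ BL (ρ.eval N), w N r ^ 2 ≤ ((q.eval N : ℕ) : ℝ)) ∧
    ∀ (N : ℕ) (x : List Bool), x.length ≤ N →
      (x ∈ L → 1 ≤ 𝔼 r ∈ BL (ρ.eval N),
        (if f (x, List.replicate N (), r) = true then w N r else 0)) ∧
      (x ∉ L → 𝔼 r ∈ BL (ρ.eval N),
        (if f (x, List.replicate N (), r) = true then w N r else 0) ≤ 0)

/-- helper49: file `CA/Main.lean` -/
def S1 : Prop := (∀ L : Set (List Bool), InNP L → CumF L) →
  ∀ L : Set (List Bool), InNP L → InBPP L

/-- `theorem t2 : S2` -/
def S2 : Prop := ∀ L : Set (List Bool), RandomFeatures L → CumF L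

/-- `theorem t3 : S3` -/
def S3 : Prop := ∀ A L : Set (List Bool), Reduces L A → CumF A → CumF L

/-- `theorem t4 : S4` -/
def S4 : Prop := ∀ L : Set (List Bool), CoinAdvice L → RandomFeatures L

/-- `theorem t5 : S5` -/
def S5 : Prop := ∀ L : Set (List Bool), InBPP L → CoinAdvice L

end Pool.Agent.Helper49.CA
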